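import Pool.Agent.NetGraphs.SL.Top
import Pool.Agent.NetGraphs.Line

set_option autoImplicit false

/-!
# Vertex transitive sub scale invariant graphs (MP_6f70ff_gt)

They exist (the bi-infinite path), and all of them have linear growth.
-/

namespace Pool.Agent.Results.MP_6f70ff_gt.SubScaleLinear

open Pool.Agent.NetGraphs

/-- There is a vertex transitive sub scale invariant graph, and every such graph has linear growth. -/
theorem result :
    (∃ (V : Type) (G : SimpleGraph V), Standing G ∧ VertexTransitive G ∧ SubScaleInvariant G) ∧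
    ∀ (V : Type) (G : SimpleGraph V), Standing G → VertexTransitive G → SubScaleInvariant G →
      ∃ C : ℝ, ∀ (v : V) (r : ℝ), 1 ≤ r → ((ball G v r).ncard : ℝ) ≤ C * r := by
  refine ⟨⟨ℤ, line, line_standing, line_transitive, line_sub⟩, ?_⟩
  intro V G hG ht hs
  obtain ⟨C, hC⟩ := SL.t_MAIN V G hG ht hs
  refine ⟨C, ?_⟩
  intro v r hr
  have h1 : ball G v r ⊆ SL.nb G v ⌊r⌋₊ := by
    intro u hu
    have hu' : (G.dist v u : ℝ) ≤ r := hu
    exact Nat.le_floor hu'
  have h2 : (ball G v r).ncard ≤ SL.vol G v ⌊r⌋₊ := Set.ncard_le_ncard h1 (SL.nb_finite hG v _)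
  have h3 := hC v ⌊r⌋₊ ((Nat.one_le_floor_iff r).2 hr)
  have h4 : ((ball G v r).ncard : ℝ) ≤ ((C * ⌊r⌋₊ : ℕ) : ℝ) := by exact_mod_cast h2.trans h3
  refine h4.trans ?_
  push_cast
  exact mul_le_mul_of_nonneg_left (Nat.floor_le (by linarith)) (by positivity)

end Pool.Agent.Results.MP_6f70ff_gt.SubScaleLinear
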